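import Pool.Agent.Helper525Drn.Bipartite2

set_option autoImplicit false

namespace Pool.Agent.Results.MP_12b649_co.Bipartite

open Pool.Agent.Helper525Drn

/-- every bipartite graph on `n ≥ 37` vertices is derangement `n`-representable, and derangement
`k`-representable for `k = 3 ⌈n/4⌉ + 2 + t ≤ n` whenever `n ≤ t!` -/
theorem result {V : Type*} [Fintype V] (G : SimpleGraph V) (hG : G.Colorable 2)
    (hn : 37 ≤ Fintype.card V) (k : ℕ) (hkn : k ≤ Fintype.card V)
    (hk : k = Fintype.card V ∨
      Fintype.card V ≤ Nat.factorial (k - 2 - 3 * ((Fintype.card V + 3) / 4))) :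
    Representable G k :=
  bipartite_main G hG hn k hkn hk

end Pool.Agent.Results.MP_12b649_co.Bipartite
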