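import Pool.Agent.Helper525Drn.Core

set_option autoImplicit false

namespace Pool.Agent.Results.MP_12b649_co.LinearBound

open Pool.Agent.Helper525Drn

/-- every graph on `n ≥ 2` vertices in which every vertex has at most `D` non-neighbours is
derangement `(2 n - 2 + D)`-representable -/
theorem result {V : Type*} [Fintype V] (G : SimpleGraph V) (hV : 2 ≤ Fintype.card V) (D : ℕ)
    (hD : CoDegLe G D) : Representable G (2 * Fintype.card V - 2 + D) :=
  general G hV D hD

end Pool.Agent.Results.MP_12b649_co.LinearBound
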