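import Pool.Agent.Helper525Drn.LowDegree2

set_option autoImplicit false

namespace Pool.Agent.Results.MP_12b649_co.MaxDegreeBound

open Pool.Agent.Helper525Drn

/-- every graph on `n` vertices with maximum degree `Δ` is derangement `k`-representable for all
`k ≥ 25 (Δ + 1) (2 ⌊log₂ n⌋ + 3)` -/
theorem result {V : Type*} [Fintype V] (G : SimpleGraph V) [DecidableRel G.Adj] (k : ℕ)
    (hk : 25 * (G.maxDegree + 1) * (2 * Nat.log 2 (Fintype.card V) + 3) ≤ k) :
    Representable G k := by
  classical
  refine lowDegree G G.maxDegree (fun v B hB => ?_) k hk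
  calc B.card ≤ (G.neighborFinset v).card := by
        apply Finset.card_le_card
        intro w hw
        rw [SimpleGraph.mem_neighborFinset]
        exact hB w hw
    _ = G.degree v := G.card_neighborFinset_eq_degree v
    _ ≤ G.maxDegree := G.degree_le_maxDegree v

end Pool.Agent.Results.MP_12b649_co.MaxDegreeBound
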