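import Pool.Agent.Helper525Drn.Core

set_option autoImplicit false

namespace Pool.Agent.Results.MP_12b649_co.SparseComplement

open Pool.Agent.Helper525Drn

/-- every graph on `n ≥ 2` vertices in which every vertex has at most `n / 32` non-neighbours is
derangement `n`-representable -/
theorem result {V : Type*} [Fintype V] (G : SimpleGraph V) (hV : 2 ≤ Fintype.card V) (D : ℕ)
    (hD : CoDegLe G D) (hn : 32 * D ≤ Fintype.card V) : Representable G (Fintype.card V) :=
  sparseV G hV D hD hn

end Pool.Agent.Results.MP_12b649_co.SparseComplement
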